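import Pool.Agent.H699.MW.Gr

/-!
# IND (for helper699): comparison with an independent weight
-/

set_option autoImplicit false

open MeasureTheory Set

namespace Pool.Agent.H898.MW.IND

open Pool.Agent.H699.MW

open scoped Classical in
/-- resampling one coordinate preserves the product measure -/
theorem pi_update {ι : Type} [Fintype ι] (μ : Measure ℝ) [IsProbabilityMeasure μ] (e : ι) :
    Measure.map (fun q : (ι → ℝ) × ℝ => Function.update q.1 e q.2)
      ((Measure.pi fun _ : ι => μ).prod μ) = Measure.pi fun _ : ι => μ := by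
  have hm : Measurable fun q : (ι → ℝ) × ℝ => Function.update q.1 e q.2 := by
    apply measurable_pi_lambda
    intro i
    by_cases hi : i = e
    · subst hi
      simpa using measurable_snd
    · have h0 : (fun q : (ι → ℝ) × ℝ => Function.update q.1 e q.2 i) = fun q => q.1 i := by
        funext q
        exact Function.update_of_ne hi _ _
      rw [h0]
      exact (measurable_pi_apply i).comp measurable_fst
  symm
  apply Measure.pi_eq
  intro s hs
  rw [Measure.map_apply hm (MeasurableSet.univ_pi hs)]
  have h1 : (fun q : (ι → ℝ) × ℝ => Function.update q.1 e q.2) ⁻¹' (Set.pi univ s) =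
      (Set.pi univ (Function.update s e univ)) ×ˢ (s e) := by
    ext q
    simp only [mem_preimage, mem_pi, mem_univ, true_implies, mem_prod]
    constructor
    · intro h
      refine ⟨fun i => ?_, ?_⟩
      · by_cases hi : i = e
        · subst hi
          simp
        · have := h i
          rw [Function.update_of_ne hi] at this ⊢
          exact this
      · have := h e
        rwa [Function.update_self] at this
    · rintro ⟨h, h'⟩ i
      by_cases hi : i = e
      · subst hi
        rwa [Function.update_self]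
      · have := h i
        rw [Function.update_of_ne hi] at this ⊢
        exact this
  rw [h1, Measure.prod_prod, Measure.pi_pi, ← Finset.mul_prod_erase _ _ (Finset.mem_univ e),
    ← Finset.mul_prod_erase Finset.univ (fun i => μ (s i)) (Finset.mem_univ e),
    Function.update_self, measure_univ, one_mul, mul_comm]
  congr 1
  apply Finset.prod_congr rfl
  intro i hi
  rw [Function.update_of_ne (Finset.ne_of_mem_erase hi)]

theorem t_IND : S_IND := by
  classical
  intro ι _ μ e f g δ ε hμ hf hg hδ hfi hgi hfI hgI hfg hε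
  set P : Measure (ι → ℝ) := Measure.pi fun _ : ι => μ with hP
  have hε0 : 0 ≤ ε := (measureReal_nonneg).trans (hε 0)
  -- the first set
  have h1 : P.real {ω | δ ≤ g ω - f ω} ≤ (∫ ω, g ω ∂P - ∫ ω, f ω ∂P) / δ := by
    have h2 : 0 ≤ᵐ[P] fun ω => g ω - f ω := by
      filter_upwards [hfg] with ω hω
      exact sub_nonneg.2 hω
    have h3 := mul_meas_ge_le_integral_of_nonneg h2 (hgI.sub hfI) δ
    rw [integral_sub hgI hfI] at h3
    rw [le_div_iff₀ hδ, mul_comm]
    exact h3
  -- the second set
  have hm : Measurable fun q : (ι → ℝ) × ℝ => Function.update q.1 e q.2 := by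
    apply measurable_pi_lambda
    intro i
    by_cases hi : i = e
    · subst hi
      simpa using measurable_snd
    · have h0 : (fun q : (ι → ℝ) × ℝ => Function.update q.1 e q.2 i) = fun q => q.1 i := by
        funext q
        exact Function.update_of_ne hi _ _
      rw [h0]
      exact (measurable_pi_apply i).comp measurable_fst
  have hS : MeasurableSet {ω : ι → ℝ | f ω ≤ ω e ∧ ω e ≤ f ω + δ} :=
    (measurableSet_le hf (measurable_pi_apply e)).inter
      (measurableSet_le (measurable_pi_apply e) (hf.add_const δ))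
  have hS' : MeasurableSet {q : (ι → ℝ) × ℝ | f q.1 ≤ q.2 ∧ q.2 ≤ f q.1 + δ} :=
    (measurableSet_le (hf.comp measurable_fst) measurable_snd).inter
      (measurableSet_le measurable_snd ((hf.comp measurable_fst).add_const δ))
  have h2 : P {ω | f ω ≤ ω e ∧ ω e ≤ f ω + δ} ≤ ENNReal.ofReal ε := by
    have h3 : P {ω | f ω ≤ ω e ∧ ω e ≤ f ω + δ} =
        (P.prod μ) {q : (ι → ℝ) × ℝ | f q.1 ≤ q.2 ∧ q.2 ≤ f q.1 + δ} := by
      conv_lhs => rw [hP, ← pi_update μ e, Measure.map_apply hm hS]
      congr 1
      ext q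
      have h4 : f (Function.update q.1 e q.2) = f q.1 :=
        hfi _ _ fun x hx => Function.update_of_ne hx _ _
      simp only [mem_preimage, mem_ofPred_eq, Function.update_self, h4]
    rw [h3, Measure.prod_apply hS']
    calc ∫⁻ x, μ (Prod.mk x ⁻¹' {q : (ι → ℝ) × ℝ | f q.1 ≤ q.2 ∧ q.2 ≤ f q.1 + δ}) ∂P
        ≤ ∫⁻ _, ENNReal.ofReal ε ∂P := by
          apply lintegral_mono
          intro x
          have h4 : (Prod.mk x ⁻¹' {q : (ι → ℝ) × ℝ | f q.1 ≤ q.2 ∧ q.2 ≤ f q.1 + δ}) =
              Set.Icc (f x) (f x + δ) := by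
            ext y
            simp [Set.mem_Icc]
          show μ (Prod.mk x ⁻¹' {q : (ι → ℝ) × ℝ | f q.1 ≤ q.2 ∧ q.2 ≤ f q.1 + δ}) ≤ ENNReal.ofReal ε
          rw [h4]
          exact (ENNReal.le_ofReal_iff_toReal_le (measure_ne_top _ _) hε0).2 (hε (f x))
      _ = ENNReal.ofReal ε := by
          rw [lintegral_const, measure_univ, mul_one]
  have h3 : P.real {ω | f ω ≤ ω e ∧ ω e ≤ f ω + δ} ≤ ε :=
    ENNReal.toReal_le_of_le_ofReal hε0 h2
  calc P.real {ω | f ω ≤ ω e ∧ ω e ≤ g ω}
      ≤ P.real ({ω | δ ≤ g ω - f ω} ∪ {ω | f ω ≤ ω e ∧ ω e ≤ f ω + δ}) := by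
        apply measureReal_mono _ (measure_ne_top _ _)
        rintro ω ⟨h4, h5⟩
        rcases le_or_gt δ (g ω - f ω) with h | h
        · exact Or.inl h
        · exact Or.inr ⟨h4, by linarith⟩
    _ ≤ P.real {ω | δ ≤ g ω - f ω} + P.real {ω | f ω ≤ ω e ∧ ω e ≤ f ω + δ} :=
        measureReal_union_le _ _
    _ ≤ _ := add_le_add h1 h3

end Pool.Agent.H898.MW.IND
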